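import Pool.Agent.H51.NS.Res
import Pool.Agent.H86.A2.Fin2
import Pool.Agent.H62.BL.Bl2

/-!
# H51-NS-FIN: theorem NS for elements of least index of odd order
-/

set_option autoImplicit false

namespace H51.NS

/-- the `P`-level theorem for odd `p` -/
theorem plvt_odd {p : ℕ} (hp : p.Prime) (hp2 : p ≠ 2) : H51.PF.PLvT p :=
  H51.AC2.plvT hp (H86.A2.apst2 hp hp2) (H62.BL.bl2 hp hp2) (H62.BL.gp2 hp hp2)

end H51.NS
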