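import Pool.Agent.H51.AC2.Fin

/-!
# H51-NS-ANY: theorem NS over every `K` which contains the roots of unity of order `m = m(G)` and over which `G` occurs, from `PLvT p`
-/

set_option autoImplicit false

open scoped Classical
open H38.ML.Spec

noncomputable section

namespace H51.NS

open H51.PF H38.BB

/-- theorem NS over every `K` with enough roots of unity over which `G` occurs -/
theorem ns_km (n : ℕ) (hn : 2 ≤ n) (G : Subgroup (Equiv.Perm (Fin n)))
    (hG : MulAction.IsPretransitive G (Fin n)) (hnil : Group.IsNilpotent G) (p : ℕ)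
    (hp : p.Prime) (hPL : PLvT p) (hser : SerG G p) :
    ∃ m : ℕ, 0 < m ∧ ∃ K₀ : IntermediateField ℚ (AlgebraicClosure ℚ), NumberField K₀ ∧
      ∀ K : IntermediateField ℚ (AlgebraicClosure ℚ), ∀ _ : NumberField K,
      (∃ z : K, IsPrimitiveRoot z m) →
        (K₀ ≤ K ∨ IsGaloisGroup K (AlgebraicClosure ℚ) G) →
          (∀ B : ℝ, nK K (AlgebraicClosure ℚ) G B ≠ ⊤) ∧
          ∃ C : ℝ, 0 < C ∧ Filter.Tendsto
            (fun B : ℝ => ((nK K (AlgebraicClosure ℚ) G B).toNat : ℝ) /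
              (B ^ (1 / (indG G : ℝ)) * Real.log B ^ (betaAll K (AlgebraicClosure ℚ) G - 1)))
            Filter.atTop (nhds C) := by
  have : Fact p.Prime := ⟨hp⟩
  have : NeZero p := ⟨hp.ne_zero⟩
  obtain ⟨S⟩ : Nonempty (Sylow p G) := inferInstance
  obtain ⟨M, hM, hPLS⟩ := hPL S S.isPGroup'
  obtain ⟨K₀, hK₀, h0⟩ := H38.BG.akn G
  have hcard : 0 < Nat.card G := Nat.card_pos
  have hm : 0 < Nat.card G * p ^ M := by
    have := hp.pos
    positivity
  refine ⟨Nat.card G * p ^ M, hm, K₀, hK₀, fun K hK hz hG' => ?_⟩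
  obtain ⟨z, hz⟩ := hz
  have hz1 : ∃ z : K, IsPrimitiveRoot z (Nat.card G) := ⟨z ^ (p ^ M), hz.pow hm (by ring)⟩
  have hzM : ∃ z : K, IsPrimitiveRoot z (p ^ M) := ⟨z ^ (Nat.card G), hz.pow hm (by ring)⟩
  have hρ : ∃ ρ : Gal(H38.ML.QBar/K) →* G, Function.Surjective ρ ∧ H38.ML.FT ρ := by
    rcases hG' with h | h
    · exact (h0 K h hK).1
    · exact h
  obtain ⟨C, hC, k, hk, hl⟩ := asy_kt n hn G hG hnil p hp S M hM
    (fun N c hN hc hs => hPLS N c _ hN hc hs) hser K hρ hz1 hzM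
  refine ⟨fun B => ?_, C, hC, ?_⟩
  · rw [hk B]
    exact ENat.natCast_ne_top _
  · refine hl.congr fun B => ?_
    rw [hk B, ENat.toNat_natCast]

end H51.NS
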