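import Pool.Agent.H51.PF.Fra
import Pool.Agent.H77.UX.TRG
import Pool.Agent.H38.BG.PIdx

/-!
# H51-NS-CHIEF: sufficient conditions for a full series

* `up`: one step of prime order. `chain`: the series.
* `ser_of_comm`: if every `g ≠ 1` in `[T, G]` has least index (`T` generated by the elements of least index), there is a full series.
* `ser_of_syl`: if the elements of least index generate a Sylow `p`-subgroup `S` and `[S, S]` has exponent `p`, there is a full series (`S` acts freely).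
-/

set_option autoImplicit false

open scoped commutatorElement
open H38.ML

noncomputable section

namespace H51.NS

open H77.UX H51.PF

section grp

variable {G : Type} [Group G] [Finite G]

/-- one step of prime order -/
theorem up {p : ℕ} (hp : p.Prime) (B : Subgroup G) [hB : B.Normal] (h : G) (hhB : h ∉ B)
    (hpB : h ^ p ∈ B) (hc : ∀ g : G, ⁅g, h⁆ ∈ B) :
    (B ⊔ Subgroup.zpowers h).Normal ∧ Nat.card (B ⊔ Subgroup.zpowers h : Subgroup G) =
      p * Nat.card B := by
  obtain ⟨x, hx⟩ : ∃ x : G ⧸ B, x = (QuotientGroup.mk' B) h := ⟨_, rfl⟩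
  have hxc : ∀ y : G ⧸ B, y * x * y⁻¹ = x := by
    intro y
    obtain ⟨g, rfl⟩ := QuotientGroup.mk'_surjective B y
    have h1 : (QuotientGroup.mk' B) ⁅g, h⁆ = 1 := (QuotientGroup.eq_one_iff _).2 (hc g)
    rw [commutatorElement_def, map_mul, map_mul, map_mul, map_inv, map_inv, ← hx] at h1
    exact mul_inv_eq_one.1 h1
  have : Fact p.Prime := ⟨hp⟩
  have hxp : orderOf x = p := by
    refine orderOf_eq_prime ?_ ?_
    · rw [hx, ← map_pow]
      exact (QuotientGroup.eq_one_iff _).2 hpB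
    · intro h1
      rw [hx] at h1
      exact hhB ((QuotientGroup.eq_one_iff _).1 h1)
  have hN : (Subgroup.zpowers x).Normal := by
    constructor
    rintro _ ⟨k, rfl⟩ y
    refine ⟨k, ?_⟩
    rw [← conj_zpow, hxc]
  have he : B ⊔ Subgroup.zpowers h = (Subgroup.zpowers x).comap (QuotientGroup.mk' B) := by
    have h1 : Subgroup.zpowers x = (Subgroup.zpowers h).map (QuotientGroup.mk' B) := by
      rw [hx, MonoidHom.map_zpowers]
    rw [h1, Subgroup.comap_map_eq, QuotientGroup.ker_mk', sup_comm]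
  rw [he]
  refine ⟨inferInstance, ?_⟩
  have h1 := Subgroup.card_mul_index ((Subgroup.zpowers x).comap (QuotientGroup.mk' B))
  rw [Subgroup.index_comap_of_surjective _ (QuotientGroup.mk'_surjective B)] at h1
  have h2 := Subgroup.card_mul_index B
  have h3 := Subgroup.card_mul_index (Subgroup.zpowers x)
  rw [Nat.card_zpowers, hxp] at h3
  have h4 : B.index = Nat.card (G ⧸ B) := rfl
  have h5 : 0 < (Subgroup.zpowers x).index := Nat.pos_of_ne_zero Subgroup.index_ne_zero_of_finite
  refine Nat.eq_of_mul_eq_mul_right h5 ?_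
  rw [h1, ← h2, h4, ← h3]
  ring

/-- a nontrivial normal subgroup of a nilpotent group meets the centre -/
theorem meet (hnil : Group.IsNilpotent G) (N : Subgroup G) [hN : N.Normal] (h : N ≠ ⊥) :
    ∃ x ∈ N, x ≠ 1 ∧ ∀ g : G, ⁅g, x⁆ = 1 := by
  classical
  obtain ⟨⟨y, hy⟩, hy1⟩ := Subgroup.ne_bot_iff_exists_ne_one.1 h
  replace hy1 : y ≠ 1 := fun h1 => hy1 (Subtype.ext h1)
  have hex : ∃ k : ℕ, ∃ x ∈ N, x ≠ 1 ∧ x ∈ Subgroup.upperCentralSeries G k := by
    obtain ⟨k, hk⟩ := hnil
    exact ⟨k, y, hy, hy1, by rw [hk]; trivial⟩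
  obtain ⟨x, hx, hx1, hxk⟩ := Nat.find_spec hex
  obtain ⟨k, hk⟩ : ∃ k, Nat.find hex = k := ⟨_, rfl⟩
  rw [hk] at hxk
  rcases k with _ | k
  · rw [Subgroup.upperCentralSeries_zero] at hxk
    exact absurd (Subgroup.mem_bot.1 hxk) hx1
  · refine ⟨x, hx, hx1, fun g => ?_⟩
    by_contra hne
    have h1 := (Subgroup.mem_upperCentralSeries_succ_iff.1 hxk) g
    have h2 : k < Nat.find hex := by omega
    refine Nat.find_min hex h2 ⟨x * g * x⁻¹ * g⁻¹, ?_, ?_, h1⟩
    · have := N.mul_mem hx (hN.conj_mem _ (N.inv_mem hx) g)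
      rwa [show x * (g * x⁻¹ * g⁻¹) = x * g * x⁻¹ * g⁻¹ by group] at this
    · intro h3
      apply hne
      rw [commutatorElement_def]
      have h4 : x * g = g * x := by
        rw [mul_inv_eq_one, mul_inv_eq_iff_eq_mul] at h3
        exact h3
      rw [← h4, mul_inv_cancel_right, mul_inv_cancel]

/-- an element of `D` which is central modulo `B` and not in `B` -/
theorem cen (hnil : Group.IsNilpotent G) {p : ℕ} (B D : Subgroup G)
    [hB : B.Normal] [hD : D.Normal] (hDp : ∀ x ∈ D, ∃ k, x ^ p ^ k = 1) (h : ¬ D ≤ B) :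
    ∃ d ∈ D, d ∉ B ∧ d ^ p ∈ B ∧ ∀ g : G, ⁅g, d⁆ ∈ B := by
  classical
  have hq : Group.IsNilpotent (G ⧸ B) := by
    have := hnil
    infer_instance
  have hDn : (D.map (QuotientGroup.mk' B)).Normal := hD.map _ (QuotientGroup.mk'_surjective B)
  obtain ⟨x, hx, hx1, hxc⟩ := meet hq (D.map (QuotientGroup.mk' B)) (by
    intro h1
    apply h
    rw [Subgroup.map_eq_bot_iff, QuotientGroup.ker_mk'] at h1
    exact h1)
  obtain ⟨d, hd, rfl⟩ := hx
  obtain ⟨k, hk⟩ := hDp d hd
  have hex : ∃ k : ℕ, d ^ p ^ k ∈ B := ⟨k, by rw [hk]; exact B.one_mem⟩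
  have hcc : ∀ (g : G), Commute ((QuotientGroup.mk' B) g) ((QuotientGroup.mk' B) d) := fun g =>
    commutatorElement_eq_one_iff_commute.1 (hxc _)
  obtain ⟨j, hj⟩ : ∃ j, Nat.find hex = j := ⟨_, rfl⟩
  have hs := Nat.find_spec hex
  rw [hj] at hs
  rcases j with _ | j
  · rw [pow_zero, pow_one] at hs
    exact absurd ((QuotientGroup.eq_one_iff _).2 hs) hx1
  · refine ⟨d ^ p ^ j, D.pow_mem hd _, Nat.find_min hex (by omega), ?_, fun g => ?_⟩
    · rw [← pow_mul, ← pow_succ]
      exact hs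
    · rw [← QuotientGroup.eq_one_iff]
      change (QuotientGroup.mk' B) ⁅g, d ^ p ^ j⁆ = 1
      rw [map_commutatorElement, map_pow, commutatorElement_eq_one_iff_commute]
      exact (hcc g).pow_right _

/-- the series -/
theorem chain {p : ℕ} (hp : p.Prime) (L : Set G) (T : Subgroup G)
    (hstep : ∀ B : Subgroup G, B.Normal → B < T → ∃ B' : Subgroup G, B'.Normal ∧ B ≤ B' ∧ B' ≤ T ∧
      Nat.card B' = p * Nat.card B ∧ ∃ h ∈ L, h ∈ B' ∧ h ∉ B) :
    ∀ (d : ℕ) (B : Subgroup G), B.Normal → B ≤ T → Nat.card T - Nat.card B ≤ d →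
      ∃ (r : ℕ) (F : ℕ → Subgroup G), F 0 = B ∧ F r = T ∧ (∀ i, (F i).Normal) ∧
        ∀ i, i < r → F i ≤ F (i + 1) ∧ Nat.card (F (i + 1)) = p * Nat.card (F i) ∧
          ∃ h ∈ L, h ∈ F (i + 1) ∧ h ∉ F i := by
  intro d
  induction d with
  | zero =>
    intro B hB hBT hd
    have h1 : B = T := by
      refine Subgroup.eq_of_le_of_card_ge hBT ?_
      omega
    exact ⟨0, fun _ => B, rfl, h1, fun _ => hB, fun i hi => absurd hi (Nat.not_lt_zero i)⟩
  | succ d ih =>
    intro B hB hBT hd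
    rcases eq_or_lt_of_le hBT with h1 | h1
    · exact ⟨0, fun _ => B, rfl, h1, fun _ => hB, fun i hi => absurd hi (Nat.not_lt_zero i)⟩
    · obtain ⟨B', hB', h2, h3, h4, h, h5, h6, h7⟩ := hstep B hB h1
      have hc : 0 < Nat.card B := Nat.card_pos
      have h8 : Nat.card B < Nat.card B' := by
        rw [h4]
        exact lt_mul_of_one_lt_left hc hp.one_lt
      obtain ⟨r, F, f0, fr, fn, fs⟩ := ih B' hB' h3 (by omega)
      refine ⟨r + 1, fun i => Nat.casesOn i B F, rfl, fr, fun i => ?_, fun i hi => ?_⟩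
      · rcases i with _ | i
        · exact hB
        · exact fn i
      · rcases i with _ | i
        · change B ≤ F 0 ∧ Nat.card (F 0) = p * Nat.card B ∧ ∃ h ∈ L, h ∈ F 0 ∧ h ∉ B
          rw [f0]
          exact ⟨h2, h4, h, h5, h6, h7⟩
        · exact fs i (by omega)

end grp

variable {n : ℕ} {G : Subgroup (Equiv.Perm (Fin n))}

theorem clos_n (hn : 2 ≤ n) (hG : MulAction.IsPretransitive G (Fin n)) :
    (Subgroup.closure (Li G)).Normal := by
  obtain ⟨-, -, -, hc, -⟩ := H38.BG.pidx_pos hn G hG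
  constructor
  intro t ht w
  induction ht using Subgroup.closure_induction with
  | mem x hx =>
    refine Subgroup.subset_closure ⟨fun h1 => hx.1 ?_, hc x w hx.1 hx.2⟩
    have h2 : x = w⁻¹ * (w * x * w⁻¹) * w := by group
    rw [h2, h1, mul_one, inv_mul_cancel]
  | one => rw [mul_one, mul_inv_cancel]; exact Subgroup.one_mem _
  | mul x y _ _ hx hy =>
    rw [show w * (x * y) * w⁻¹ = (w * x * w⁻¹) * (w * y * w⁻¹) by group]
    exact Subgroup.mul_mem _ hx hy
  | inv x _ hx =>
    rw [show w * x⁻¹ * w⁻¹ = (w * x * w⁻¹)⁻¹ by group]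
    exact Subgroup.inv_mem _ hx

/-- comparison of the indices of elements of order `p` (as in H77/UX/CASE.lean) -/
theorem ind_le_iff {p : ℕ} (hp : p.Prime) (g h : G)
    (hg : orderOf g = p) (hh : orderOf h = p) :
    ind (g : Equiv.Perm (Fin n)) ≤ ind (h : Equiv.Perm (Fin n)) ↔
      Fx (h : Equiv.Perm (Fin n)) ≤ Fx (g : Equiv.Perm (Fin n)) := by
  have least_fx : ∀ g : G, orderOf g = p →
      p * ind (g : Equiv.Perm (Fin n)) = (p - 1) * (n - Fx (g : Equiv.Perm (Fin n))) := by
    intro g hg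
    have h := ind_prime (g : Equiv.Perm (Fin n)) (by rw [Subgroup.orderOf_coe, hg]; exact hp)
    rwa [Subgroup.orderOf_coe, hg] at h
  have e1 := least_fx g hg
  have e2 := least_fx h hh
  have h1 := Fx_le (g : Equiv.Perm (Fin n))
  have h2 := Fx_le (h : Equiv.Perm (Fin n))
  have h3 := hp.two_le
  obtain ⟨q, rfl⟩ : ∃ q, p = q + 2 := ⟨p - 2, by omega⟩
  rw [show q + 2 - 1 = q + 1 by omega] at e1 e2
  constructor
  · intro hle
    by_contra hcon
    push Not at hcon
    have h4 : (q + 1) * (n - Fx (h : Equiv.Perm (Fin n))) <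
        (q + 1) * (n - Fx (g : Equiv.Perm (Fin n))) :=
      Nat.mul_lt_mul_of_pos_left (by omega) (by omega)
    have h5 := Nat.mul_le_mul_left (q + 2) hle
    omega
  · intro hle
    have h4 : (q + 1) * (n - Fx (g : Equiv.Perm (Fin n))) ≤
        (q + 1) * (n - Fx (h : Equiv.Perm (Fin n))) := Nat.mul_le_mul_left _ (by omega)
    have h5 : (q + 2) * ind (g : Equiv.Perm (Fin n)) ≤ (q + 2) * ind (h : Equiv.Perm (Fin n)) := by
      omega
    exact Nat.le_of_mul_le_mul_left h5 (by omega)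

/-- the elements of the subgroup generated by the elements of least index are `p`-elements -/
theorem clos_p (hnil : Group.IsNilpotent G) {p : ℕ} (hp : p.Prime) (hL : ∀ h ∈ Li G, h ^ p = 1) :
    ∀ x ∈ Subgroup.closure (Li G), ∃ k, x ^ p ^ k = 1 := by
  have : Fact p.Prime := ⟨hp⟩
  obtain ⟨S⟩ : Nonempty (Sylow p G) := inferInstance
  have h1 : Subgroup.closure (Li G) ≤ (S : Subgroup G) := by
    rw [Subgroup.closure_le]
    exact fun h hh => nil_mem hnil hp S ⟨1, by rw [pow_one]; exact hL h hh⟩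
  intro x hx
  obtain ⟨k, hk⟩ := S.isPGroup' ⟨x, h1 hx⟩
  refine ⟨k, ?_⟩
  have := congrArg Subtype.val hk
  simpa using this

/-- every nontrivial element of `[T, G]` has least index -/
theorem ser_of_comm (hn : 2 ≤ n) (hG : MulAction.IsPretransitive G (Fin n))
    (hnil : Group.IsNilpotent G) {p : ℕ} (hp : p.Prime)
    (hL : ∀ h ∈ Li G, h ^ p = 1)
    (hC : ∀ g ∈ ⁅Subgroup.closure (Li G), (⊤ : Subgroup G)⁆, g ≠ 1 → g ∈ Li G) : SerG G p := by
  have hT := clos_n hn hG
  obtain ⟨T, hTd⟩ : ∃ T, T = Subgroup.closure (Li G) := ⟨_, rfl⟩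
  have hTp := clos_p hnil hp hL
  rw [← hTd] at hT hC hTp
  have hD : (⁅T, (⊤ : Subgroup G)⁆).Normal := Subgroup.commutator_normal _ _
  have hDT : ⁅T, (⊤ : Subgroup G)⁆ ≤ T := Subgroup.commutator_le_left _ _
  obtain ⟨r, F, f0, fr, fn, fs⟩ := chain hp (Li G) T (fun B hB hBT => by
    by_cases h : ⁅T, (⊤ : Subgroup G)⁆ ≤ B
    · obtain ⟨x, hx, hxB⟩ : ∃ x ∈ Li G, x ∉ B := by
        by_contra hcon
        push Not at hcon
        refine hBT.not_ge ?_
        rw [hTd, Subgroup.closure_le]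
        exact hcon
      have hxT : x ∈ T := by
        rw [hTd]
        exact Subgroup.subset_closure hx
      obtain ⟨h1, h2⟩ := up hp B x hxB (by rw [hL x hx]; exact B.one_mem) (fun g => by
        have h3 : ⁅x, g⁆ ∈ ⁅T, (⊤ : Subgroup G)⁆ :=
          Subgroup.commutator_mem_commutator hxT (Subgroup.mem_top g)
        rw [← commutatorElement_inv]
        exact B.inv_mem (h h3))
      exact ⟨_, h1, le_sup_left, sup_le hBT.le (by rw [Subgroup.zpowers_le]; exact hxT), h2, x,
        hx, Subgroup.mem_sup_right (Subgroup.mem_zpowers x), hxB⟩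
    · obtain ⟨d, hd, hdB, hdp, hdc⟩ := cen hnil B ⁅T, (⊤ : Subgroup G)⁆
        (fun x hx => hTp x (hDT hx)) h
      obtain ⟨h1, h2⟩ := up hp B d hdB hdp hdc
      refine ⟨_, h1, le_sup_left, sup_le hBT.le (by rw [Subgroup.zpowers_le]; exact hDT hd), h2,
        d, hC d hd ?_, Subgroup.mem_sup_right (Subgroup.mem_zpowers d), hdB⟩
      rintro rfl
      exact hdB B.one_mem) (Nat.card T) ⊥ inferInstance bot_le (Nat.sub_le _ _)
  exact ⟨r, F, f0, fr.trans hTd, fn, fs⟩

/-- the elements of least index generate a Sylow subgroup with commutator subgroup of exponent `p` -/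
theorem ser_of_syl (hn : 2 ≤ n) (hG : MulAction.IsPretransitive G (Fin n))
    (hnil : Group.IsNilpotent G) {p : ℕ} (hp : p.Prime) (S : Sylow p G)
    (hS : Subgroup.closure (Li G) = (S : Subgroup G))
    (hE : ∀ x ∈ ⁅(S : Subgroup G), (S : Subgroup G)⁆, x ^ p = 1) : SerG G p := by
  have : Fact p.Prime := ⟨hp⟩
  obtain ⟨-, ⟨g₀, hg₀, hg₀'⟩, hmin, -, -⟩ := H38.BG.pidx_pos hn G hG
  have hL : ∀ h ∈ Li G, h ^ p = 1 := by
    rintro h ⟨h0, hh⟩
    have hmem : h ∈ (S : Subgroup G) := by
      rw [← hS]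
      exact Subgroup.subset_closure ⟨h0, hh⟩
    obtain ⟨k, hk⟩ := S.isPGroup' ⟨h, hmem⟩
    refine H57.MP.ord_min G hp h hh k ?_
    have := congrArg Subtype.val hk
    simpa using this
  have hpG : p ∣ Nat.card G := by
    have h2 : orderOf g₀ = p := orderOf_eq_prime (hL g₀ ⟨hg₀, hg₀'⟩) hg₀
    rw [← h2]
    exact orderOf_dvd_natCard g₀
  obtain ⟨f, hf, hfk⟩ := nil_split hnil hp hpG S
  have hSn := nil_normal hnil hp S
  -- the elements of the kernel commute with `S`
  have hcom : ∀ t : G, f t = 1 → ∀ s ∈ (S : Subgroup G), s * t = t * s := by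
    intro t ht s hs
    obtain ⟨k, hk⟩ := S.isPGroup' ⟨s, hs⟩
    refine nil_comm hnil hp ⟨k, ?_⟩ (hfk t ht)
    have := congrArg Subtype.val hk
    simpa using this
  have hdec : ∀ g : G, ∃ t : G, f t = 1 ∧ g = (f g : G) * t := by
    intro g
    refine ⟨(f g : G)⁻¹ * g, ?_, by group⟩
    rw [map_mul, map_inv, hf (f g), inv_mul_cancel]
  -- no element of least index has a fixed point
  have hfree : ∀ h ∈ Li G, Fx (h : Equiv.Perm (Fin n)) = 0 := by
    intro h hh
    by_contra hFx
    have hSG : ∀ h' ∈ Li G, ∃ y : Fin n, (h' : Equiv.Perm (Fin n)) y = y := by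
      intro h' hh'
      have e1 : orderOf h = p := orderOf_eq_prime (hL h hh) hh.1
      have e2 : orderOf h' = p := orderOf_eq_prime (hL h' hh') hh'.1
      have e3 := (ind_le_iff hp h' h e2 e1).1 (le_of_eq (hh'.2.trans hh.2.symm))
      have e4 : 0 < Fx (h' : Equiv.Perm (Fin n)) := by omega
      unfold Fx at e4
      have e5 := (Nat.card_pos_iff.1 e4).1
      exact ⟨e5.some.1, e5.some.2⟩
    let y₀ : Fin n := ⟨0, by omega⟩
    let M₀ : Subgroup G := MulAction.stabilizer G y₀ ⊔ f.ker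
    have hM₀ : M₀ ≠ ⊤ := by
      intro htop
      -- the image of the stabiliser is `S`
      have h1 : ∀ x : S, ∃ a ∈ MulAction.stabilizer G y₀, f a = x := by
        intro x
        have h2 : (x : G) ∈ M₀ := by rw [htop]; trivial
        obtain ⟨a, ha, b, hb, hab⟩ := Subgroup.mem_sup_of_normal_right.1 h2
        refine ⟨a, ha, ?_⟩
        have h3 := congrArg f hab
        rw [map_mul, MonoidHom.mem_ker.1 hb, mul_one, hf x] at h3
        exact h3
      -- so `S` fixes `y₀`: the order of `S` divides the order of the stabiliser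
      have h4 : (S : Subgroup G) ≤ MulAction.stabilizer G y₀ := by
        obtain ⟨St, hSt⟩ : ∃ St, St = MulAction.stabilizer G y₀ := ⟨_, rfl⟩
        rw [← hSt] at h1 ⊢
        have h5 : Function.Surjective (f.comp St.subtype) := fun x => by
          obtain ⟨a, ha, h6⟩ := h1 x
          exact ⟨⟨a, ha⟩, h6⟩
        have h6 : Nat.card S ∣ Nat.card St := Subgroup.card_dvd_of_surjective _ h5
        obtain ⟨U⟩ : Nonempty (Sylow p St) := inferInstance
        have h7 : IsPGroup p ((U : Subgroup St).map St.subtype) := U.isPGroup'.map _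
        have h8 : ((U : Subgroup St).map St.subtype) ≤ (S : Subgroup G) := by
          intro x hx
          obtain ⟨k, hk⟩ := h7 ⟨x, hx⟩
          refine nil_mem hnil hp S ⟨k, ?_⟩
          have := congrArg Subtype.val hk
          simpa using this
        have h9 : Nat.card (S : Subgroup G) ≤ Nat.card ((U : Subgroup St).map St.subtype) := by
          rw [Nat.card_congr ((U : Subgroup St).equivMapOfInjective St.subtype
            St.subtype_injective).symm.toEquiv, U.card_eq_multiplicity]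
          have h10 : Nat.card S = p ^ (Nat.card G).factorization p := S.card_eq_multiplicity
          rw [h10] at h6 ⊢
          exact Nat.pow_le_pow_right hp.pos
            ((Nat.Prime.pow_dvd_iff_le_factorization hp Nat.card_pos.ne').1 h6)
        have h11 := Subgroup.eq_of_le_of_card_ge h8 h9
        rw [← h11]
        exact Subgroup.map_subtype_le _
      -- so `S` is trivial
      have h5 : ∀ s ∈ (S : Subgroup G), s = 1 := by
        intro s hs
        refine Subtype.ext (Equiv.ext fun y => ?_)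
        obtain ⟨g, hg⟩ := MulAction.exists_smul_eq G y₀ y
        have h6 := h4 (hSn.conj_mem s hs g⁻¹)
        rw [MulAction.mem_stabilizer_iff, mul_smul, mul_smul, inv_inv, hg, inv_smul_eq_iff,
          hg] at h6
        exact h6
      exact hh.1 (h5 h (by rw [← hS]; exact Subgroup.subset_closure hh))
    obtain ⟨M, hM, hM₀M⟩ := (eq_top_or_exists_le_coatom M₀).resolve_left hM₀
    have hMn : M.Normal := by
      have hnc : NormalizerCondition G := Group.normalizerCondition_of_isNilpotent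
      exact Subgroup.NormalizerCondition.normal_of_coatom _ hnc hM
    have hSM : (S : Subgroup G) ≤ M := by
      rw [← hS, Subgroup.closure_le]
      intro h' hh'
      obtain ⟨y, hy⟩ := hSG h' hh'
      obtain ⟨g, hg⟩ := MulAction.exists_smul_eq G y y₀
      have h1 : g * h' * g⁻¹ ∈ MulAction.stabilizer G y₀ := by
        rw [MulAction.mem_stabilizer_iff, ← hg, mul_smul, mul_smul, inv_smul_smul]
        congr 1
      have h2 := hMn.conj_mem _ (hM₀M ((le_sup_left : _ ≤ M₀) h1)) g⁻¹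
      rwa [show g⁻¹ * (g * h' * g⁻¹) * g⁻¹⁻¹ = h' by group] at h2
    refine hM.1 (eq_top_iff.2 fun g _ => ?_)
    obtain ⟨t, ht, he⟩ := hdec g
    rw [he]
    exact M.mul_mem (hSM (f g).2) (hM₀M ((le_sup_right : _ ≤ M₀) ht))
  refine ser_of_comm hn hG hnil hp hL ?_
  rw [hS]
  have hcomm : ⁅(S : Subgroup G), (⊤ : Subgroup G)⁆ ≤ ⁅(S : Subgroup G), (S : Subgroup G)⁆ := by
    rw [Subgroup.commutator_le]
    intro s hs g _
    obtain ⟨t, ht, he⟩ := hdec g
    have h1 := hcom t ht s hs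
    have h2 : ⁅s, g⁆ = ⁅s, (f g : G)⁆ := by
      rw [commutatorElement_def, commutatorElement_def]
      have h3 : s⁻¹ * t⁻¹ = t⁻¹ * s⁻¹ := by
        rw [← mul_inv_rev, ← mul_inv_rev, h1]
      conv_lhs => rw [he]
      rw [mul_inv_rev]
      have h4 : s * ((f g : G) * t) * s⁻¹ * (t⁻¹ * (f g : G)⁻¹) =
          s * (f g : G) * t * (s⁻¹ * t⁻¹) * (f g : G)⁻¹ := by group
      rw [h4, h3]
      group
    rw [h2]
    exact Subgroup.commutator_mem_commutator hs (f g).2
  intro x hx hx1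
  have hxp : x ^ p = 1 := hE x (hcomm hx)
  have e1 : orderOf x = p := orderOf_eq_prime hxp hx1
  have hg : g₀ ∈ Li G := ⟨hg₀, hg₀'⟩
  have e2 : orderOf g₀ = p := orderOf_eq_prime (hL g₀ hg) hg₀
  have e3 : ind (g₀ : Equiv.Perm (Fin n)) ≤ ind (x : Equiv.Perm (Fin n)) := by
    rw [hg₀']
    exact hmin x hx1
  have e4 := (ind_le_iff hp g₀ x e2 e1).1 e3
  have e5 : ind (x : Equiv.Perm (Fin n)) ≤ ind (g₀ : Equiv.Perm (Fin n)) := by
    refine (ind_le_iff hp x g₀ e1 e2).2 ?_
    rw [hfree g₀ hg]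
    exact Nat.zero_le _
  exact ⟨hx1, le_antisymm (e5.trans hg₀'.le) (hmin x hx1)⟩

end H51.NS
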