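import Pool.Agent.H51.NS.Fin
import Pool.Agent.H35.NS2.All
import Pool.Agent.H93.G2.Smz

/-!
# H51-NS-ALL: the `P`-level theorem for all primes
-/

set_option autoImplicit false

namespace H51.NS

/-- the `P`-level theorem for all primes -/
theorem plvt_all {p : ℕ} (hp : p.Prime) : H51.PF.PLvT p := by
  rcases eq_or_ne p 2 with rfl | h
  · exact H35.NS2.plvt_smx Nat.prime_two H93.G2.smx2
  · exact plvt_odd hp h

end H51.NS
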