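import Pool.Agent.H51.NS.Any
import Pool.Agent.H51.NS.Chief

/-!
# H51-NS-RES: theorem NS in the form of the hand-in, from `PLvT p` for the order `p` of the elements of least index
-/

set_option autoImplicit false

open scoped commutatorElement
open H38.ML.Spec

noncomputable section

namespace H51.NS

open H51.PF H77.UX

/-- conditions on the subgroup generated by the elements of least index -/
def Cond {n : ℕ} (G : Subgroup (Equiv.Perm (Fin n))) : Prop :=
  (∃ (r : ℕ) (T : ℕ → Subgroup G), T 0 = ⊥ ∧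
      T r = Subgroup.closure {h : G | h ≠ 1 ∧ ind (h : Equiv.Perm (Fin n)) = indG G} ∧
      ∀ i, i < r → T i ≤ T (i + 1) ∧ (T (i + 1)).Normal ∧ ((T i).relIndex (T (i + 1))).Prime ∧
        ∃ h : G, h ≠ 1 ∧ ind (h : Equiv.Perm (Fin n)) = indG G ∧ h ∈ T (i + 1) ∧ h ∉ T i) ∨
    (∀ g ∈ ⁅Subgroup.closure {h : G | h ≠ 1 ∧ ind (h : Equiv.Perm (Fin n)) = indG G},
      (⊤ : Subgroup G)⁆, g ≠ 1 → ind (g : Equiv.Perm (Fin n)) = indG G) ∨
    (∃ p : ℕ, p.Prime ∧ ∃ S : Sylow p G,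
      Subgroup.closure {h : G | h ≠ 1 ∧ ind (h : Equiv.Perm (Fin n)) = indG G} =
        (S : Subgroup G) ∧ ∀ x ∈ ⁅(S : Subgroup G), (S : Subgroup G)⁆, x ^ p = 1)

/-- each condition gives a full series -/
theorem serg_of {n : ℕ} (hn : 2 ≤ n) {G : Subgroup (Equiv.Perm (Fin n))}
    (hG : MulAction.IsPretransitive G (Fin n)) (hnil : Group.IsNilpotent G) {p : ℕ}
    (hp : p.Prime) (hL : ∀ h ∈ Li G, orderOf h = p) (hC : Cond G) : SerG G p := by
  have : Fact p.Prime := ⟨hp⟩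
  have hLp : ∀ h ∈ Li G, h ^ p = 1 := fun h hh => by
    rw [← hL h hh]
    exact pow_orderOf_eq_one h
  have hcl := clos_p hnil hp hLp
  rcases hC with ⟨r, T, h0, hr, hs⟩ | h | ⟨q, hq, S, hS, hE⟩
  · -- all subgroups of the series lie in the last one
    have hle : ∀ i, i ≤ r → T i ≤ T r := by
      intro i hi
      induction hi using Nat.decreasingInduction with
      | self => exact le_rfl
      | of_succ k hk ih => exact ((hs k hk).1).trans ih
    refine ⟨r, fun i => T (min i r), ?_, ?_, fun i => ?_, fun i hi => ?_⟩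
    · change T (min 0 r) = ⊥
      rw [Nat.zero_min, h0]
    · change T (min r r) = _
      rw [min_self, hr]
      rfl
    · obtain ⟨j, hj⟩ : ∃ j, j = min i r := ⟨_, rfl⟩
      change (T (min i r)).Normal
      rw [← hj]
      rcases j with _ | j
      · rw [h0]
        infer_instance
      · exact (hs j (by omega)).2.1
    · obtain ⟨h1, -, h3, h, h4, h5, h6, h7⟩ := hs i hi
      change T (min i r) ≤ T (min (i + 1) r) ∧ Nat.card (T (min (i + 1) r)) =
        p * Nat.card (T (min i r)) ∧ ∃ h ∈ Li G, h ∈ T (min (i + 1) r) ∧ h ∉ T (min i r)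
      rw [min_eq_left hi.le, min_eq_left (Nat.succ_le_of_lt hi)]
      refine ⟨h1, ?_, h, ⟨h4, h5⟩, h6, h7⟩
      have e1 : (T i).relIndex (T (i + 1)) * Nat.card (T i) = Nat.card (T (i + 1)) := by
        have e0 := Subgroup.relIndex_mul_relIndex ⊥ (T i) (T (i + 1)) bot_le h1
        rw [Subgroup.relIndex_bot_left, Subgroup.relIndex_bot_left] at e0
        rw [mul_comm]
        exact e0
      have e2 : IsPGroup p (T (i + 1)) := by
        intro x
        obtain ⟨k, hk⟩ := hcl x (by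
          have := hle (i + 1) hi x.2
          rwa [hr] at this)
        exact ⟨k, Subtype.ext hk⟩
      obtain ⟨k, hk⟩ := IsPGroup.iff_card.1 e2
      have e3 : (T i).relIndex (T (i + 1)) ∣ p ^ k := by
        rw [← hk, ← e1]
        exact Dvd.intro _ rfl
      have e4 : (T i).relIndex (T (i + 1)) = p :=
        (Nat.prime_dvd_prime_iff_eq h3 hp).1 (h3.dvd_of_dvd_pow e3)
      rw [← e1, e4]
  · refine ser_of_comm hn hG hnil hp hLp fun g hg hg1 => ⟨hg1, h g hg hg1⟩
  · obtain ⟨-, ⟨g₀, hg₀, hg₀'⟩, -, -, -⟩ := H38.BG.pidx_pos hn G hG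
    have hqp : q = p := by
      have h1 : g₀ ∈ (S : Subgroup G) := by
        rw [← hS]
        exact Subgroup.subset_closure ⟨hg₀, hg₀'⟩
      obtain ⟨k, hk⟩ := S.isPGroup' ⟨g₀, h1⟩
      have h2 : g₀ ^ q ^ k = 1 := by
        have := congrArg Subtype.val hk
        simpa using this
      have h3 : p ∣ q ^ k := by
        rw [← hL g₀ ⟨hg₀, hg₀'⟩]
        exact orderOf_dvd_of_pow_eq_one h2
      exact ((Nat.prime_dvd_prime_iff_eq hp hq).1 (hp.dvd_of_dvd_pow h3)).symm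
    subst hqp
    exact ser_of_syl hn hG hnil hp S hS hE

/-- theorem NS, hand-in form -/
theorem ns_res (n : ℕ) (hn : 2 ≤ n) (G : Subgroup (Equiv.Perm (Fin n)))
    (hG : MulAction.IsPretransitive G (Fin n)) (hnil : Group.IsNilpotent G)
    (hPL : ∀ p : ℕ, p.Prime → (∃ h ∈ Li G, orderOf h = p) → PLvT p) (hC : Cond G) :
    ∃ m : ℕ, 0 < m ∧ ∃ K₀ : IntermediateField ℚ (AlgebraicClosure ℚ), NumberField K₀ ∧
      ∀ K : IntermediateField ℚ (AlgebraicClosure ℚ), ∀ _ : NumberField K,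
      (∃ z : K, IsPrimitiveRoot z m) →
        (K₀ ≤ K ∨ IsGaloisGroup K (AlgebraicClosure ℚ) G) →
          (∀ B : ℝ, nK K (AlgebraicClosure ℚ) G B ≠ ⊤) ∧
          ∃ C : ℝ, 0 < C ∧ Filter.Tendsto
            (fun B : ℝ => ((nK K (AlgebraicClosure ℚ) G B).toNat : ℝ) /
              (B ^ (1 / (indG G : ℝ)) * Real.log B ^ (betaAll K (AlgebraicClosure ℚ) G - 1)))
            Filter.atTop (nhds C) := by
  obtain ⟨-, ⟨g₀, hg₀, hg₀'⟩, -, -, -⟩ := H38.BG.pidx_pos hn G hG
  obtain ⟨p, hpd⟩ : ∃ p, p = orderOf g₀ := ⟨_, rfl⟩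
  have hp : p.Prime := by
    rw [hpd]
    exact H38.ML.prime_of_least G g₀ hg₀ hg₀'
  have hL : ∀ h ∈ Li G, orderOf h = p := fun h hh => by
    rw [hpd]
    exact trg hn hG hnil h g₀ hh.1 hg₀ hh.2 hg₀'
  exact ns_km n hn G hG hnil p hp (hPL p hp ⟨g₀, ⟨hg₀, hg₀'⟩, hpd.symm⟩)
    (serg_of hn hG hnil hp hL hC)

end H51.NS
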